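import Pool.Agent.N174.BPN.Fin

/-!
# Finitely many powers of an admissible subcategory decide the noncommutative Hodge conjecture

Let `𝒞` be an arbitrary admissible subcategory of `D^perf(X)`, `X` a smooth proper complex variety,
and let `𝒞^n` be the admissible subcategory `𝒞 ⊠ ... ⊠ 𝒞` of `D^perf(X^n)`. Let
`V = (K^top_0(𝒞) ⊕ K^top_1(𝒞)) ⊗ ℚ`, let `t` be the transcendental rank of `𝒞`, that is `dim V`
minus the rank of the group of the Hodge classes in `V`, and let `w` be a bound of `|p - q|` for the
Hodge types `(p, q)` of `V` (at most `dim X`). Let

* `N = max(4, t)` if the centre of the algebra of the endomorphisms of the Hodge structure `V`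
  consists of self-adjoint endomorphisms (it is a product of totally real fields),
* `N = max(4, t ^ 2 / 4)` if the Hodge group of `V` is semisimple,
* `N = max(4, (w t) ^ t)` in general.

**If the noncommutative Hodge conjecture is true for the powers `𝒞^n` with `n ≤ N`, then it is true
for all powers `𝒞^n`,** and for all admissible subcategories whose topological K-theory is a direct
summand of the one of a finite sum of such powers, by functors given by kernels.

Only the Hodge structure of `𝒞` enters, and not the one of the ambient variety `X`, which may be much
larger. For instance `t ≤ 22` for the K3 categories of cubic fourfolds and of Gushel-Mukai varieties,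
and `N ≤ 22` if the endomorphism field of the transcendental part is totally real, as for the very
general ones. The powers of `𝒞` may be replaced by all mixed products of several categories `𝒞_i`:
take the orthogonal sum of the `𝒞_i`, with `t = ∑ t_i`. For `𝒞 = D^perf(X)` with `X` projective the theorem is the starting result
`MP_e12fcd_ag.BoundedPower` on the Hodge conjecture for the powers of `X`.

Nothing is assumed about classes of `𝒞^op ⊠ 𝒞`, about Künneth components or about the noncommutative
standard conjectures. In the Lean statement `C n` is the space spanned by the classes of the objects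
of `𝒞^n` in `V^(⊗ n)`, and of these spaces only the properties in `IsObjectClasses` are used: they
consist of Hodge classes, and are stable under the products of objects, under the permutations of the
factors (which act on the tensor power by the rule of signs) and under the functors
`RHom(F, -) : 𝒞^n ⊠ 𝒞 ⊠ 𝒞 ⟶ 𝒞^n` for the objects `F` of `𝒞 ⊠ 𝒞`. The polarisation `ψ` of `V` is only a
polarisation of the Hodge structure; there is no relation between `ψ` and the Euler form `χ`.

The proof. (1) As `χ` is perfect, the polarisation `ψ`, the forms twisted by the parity operator
(`+1` on `K^top_0`, `-1` on `K^top_1`) and the inverse of `ψ` are given by Hodge classes in `V ⊗ V`.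
These are classes of objects of `𝒞 ⊠ 𝒞` by the hypothesis for `n = 2`. With `RHom(F, -)` it follows
that the spaces `C n` are stable under the contractions with `ψ`, under the parity operators of all
factors, and therefore under the permutations of the factors without signs. (2) We pass from `V` to
`ℚ ⊕ V`, that is, from `𝒞` to `D(pt) ⊕ 𝒞`, whose powers are sums of powers of `𝒞`. (3) The theorem of
the files `N996.FP` on polarised Hodge structures with a distinguished Hodge class is applied to
`ℚ ⊕ V`, which has the same transcendental rank as `V`.
-/

namespace Pool.Agent.Results.MP_43e44c_ag.BoundedPowers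

open Pool.Agent.N174.BPN

/-- **The bounded power theorem for the noncommutative Hodge conjecture.** -/
theorem result {ι : Type} [Fintype ι] [DecidableEq ι] (V : HodgeStr ι) (p : ι → Fin 2)
    (χ : Matrix ι ι ℚ) (hV : IsNC V p χ) (C : ∀ n : ℕ, Submodule ℚ ((Fin n → ι) → ℚ))
    (hC : IsObjectClasses V p χ C) (ψ : Matrix ι ι ℚ) (hψ : V.IsPolarisation ψ)
    (hψp : ∀ i j, p i ≠ p j → ψ i j = 0) (N : ℕ) (hN : V.IsExponent ψ N)
    (h : ∀ n ≤ N, NCHodge V C n) :
    (∀ n, NCHodge V C n) ∧
      ∀ {ι' : Type} [Fintype ι'] [DecidableEq ι'] (W : HodgeStr ι') (D : Submodule ℚ (ι' → ℚ)),
        FromPowers V C W D → W.hdg ≤ D :=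
  ⟨nc_core hV hC hψ hψp hN h, fun _ _ hW => fromPowers hW (nc_core hV hC hψ hψp hN h)⟩

end Pool.Agent.Results.MP_43e44c_ag.BoundedPowers
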