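import Mathlib
import Pool.Agent.N995.Nc1

/-!
# The noncommutative Hodge conjecture for categories generated by abelian varieties

Let `X j` be finitely many complex abelian varieties of any dimension. Suppose that for each `j` either
(`SmallTypes`) each simple factor of `X j`

* has dimension at most three, or
* is of Albert type I or II with odd relative dimension, or relative dimension at most three (the
  dimension is unbounded, for instance `End = ℤ` and any odd dimension), or
* has an imaginary quadratic field as its endomorphism algebra, with multiplicities at most three (and
  trivial discriminant if both are three), or
* has complex multiplication, where the CM part is divided into independent blocks of known kinds;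

or (`FactorsOfSmall`) all simple factors of `X j` are factors of one abelian variety of dimension at most
five without fourfold factor `Y` with `End(Y) = ℤ`.

Let `C` be an admissible subcategory of the derived category of a smooth proper complex variety that is a
direct factor (through kernels, with rational coefficients) of a finite sum of the categories `D(X j)`.
Then every Hodge class in `K_0^top(C) ⊗ ℚ` is a combination of classes of objects of `C`.

Examples of such categories (not formalised): all admissible subcategories of `D(V)`, and of the twisted
categories `D(V, α)`, where `V` is dominated by a product of curves whose Jacobians are isogenous to
products of factors of one of the `X j`, in particular powers of a curve of genus at most five whose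
Jacobian has no fourfold factor `Y` with `End(Y) = ℤ`, and symmetric products and moduli spaces of stable
sheaves on it, and generalized Kummer varieties and Hilbert schemes of abelian surfaces; the categories
obtained from these by semiorthogonal decompositions and tensor products; and the residual categories
(Kuznetsov components) of the varieties with such decompositions, for instance of intersections of two
quadrics of odd dimension and of their products.

The proof: the components in `H^{2 b}(X j)(b)` of a Hodge class in `K_0^top(C) ⊗ ℚ` are Hodge classes, and
they are in the class `Alg` of algebraic cycles by the results of `R915`, `N183.TS`
(Hodge classes for the types of `SmallTypes`) and of `MP_e12fcd_ag.PowersUpToDimensionFive`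
(`FactorsOfSmall`).
-/

namespace Pool.Agent.Results.MP_43e44c_ag.GeneratedByAbelianVarieties

open Module Pool.Agent.Y90 Pool.Agent.N995.OD Pool.Agent.N995.NC

/-- **The noncommutative Hodge conjecture for categories generated by abelian varieties.**
`W = K_0^top(C) ⊗ ℚ`, `Hdg` is the space of Hodge classes and `Z` the image of `K_0(C) ⊗ ℚ`. -/
theorem result {J : Type} [Fintype J] (X : J → AV)
    (hX : ∀ j, SmallTypes (X j) ∨ FactorsOfSmall (X j)) (b : J → ℕ)
    {W : Type} [AddCommGroup W] [Module ℚ W] (Hdg Z : Submodule ℚ W)
    (f : ∀ j, Coh (X j) (b j) →ₗ[ℚ] W) (g : ∀ j, W →ₗ[ℚ] Coh (X j) (b j))
    (h : IsDirectFactor X b Hdg Z f g) : Hdg ≤ Z :=
  hodge_le hX h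

end Pool.Agent.Results.MP_43e44c_ag.GeneratedByAbelianVarieties
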