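import Pool.Agent.N174.NC.HMain

/-!
# The noncommutative Hodge conjecture for the products of a category with varieties

Let `𝒞` be an arbitrary admissible subcategory of `D^perf(T)`, `T` a smooth proper complex variety.
The theorem is about the admissible subcategories `D(V) ⊠ 𝒞` of `D^perf(V × T)`. It reduces the
noncommutative Hodge conjecture for `D(V) ⊠ 𝒞` to the noncommutative Hodge conjecture for
`D(V₀) ⊠ 𝒞` for all varieties `V` which are obtained from `V₀` by the following steps:

* from `Y ^ (n + 1) × Z` to `X ^ (n + 1) × Z`, in all powers, where `f : X ⟶ Y` is a morphism whose
  vanishing cohomology `E = ker f_*` is in the middle degree and irreducible under all subgroups of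
  finite index of the monodromy group `Γ`, with a retraction of `f^*` along `E` which is given by
  algebraic correspondences; some element of `Γ` acts trivially on the cohomology of `Y` and `Z` and
  on `K^top(𝒞)`, and by a Picard-Lefschetz formula on `E`, and the Hodge classes of
  `D(X ^ (n + 1) × Z) ⊠ 𝒞` are fixed by subgroups of finite index of `Γ`; if the dimension of `X` is
  even, `n + 1 < dim E`;
* from `Z` to `Y × Z`, where the diagonal of `Y` is decomposable (toric varieties, homogeneous
  spaces and so on);
* from `V` to the varieties dominated by `V`.

For example let `X` be a very general member of a Lefschetz pencil of ample divisors (or of a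
suitable pencil of double coverings) of a toric variety or a homogeneous space `Y`, where very
general means outside countably many members which depend on `𝒞`. If the dimension of `X` is odd,
then for all `n` and **all admissible subcategories `𝒞`** the noncommutative Hodge conjecture for
`D(X ^ n) ⊠ 𝒞` is equivalent to the noncommutative Hodge conjecture for `𝒞`. So it is true for all
categories `𝒞` for which the conjecture is known, such as the K3 categories of cubic fourfolds and
Gushel-Mukai varieties, noncommutative curves and surfaces, the categories of modules over finite
dimensional algebras, and the components of the derived categories of threefolds.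

In the statement only the properties of the Hodge classes and of the classes of objects of
`D(V) ⊠ 𝒞` are used that are listed in `HodgeCat`: they are rational subspaces of the topological
K-theory `H(V) ⊗ K^top(𝒞)` which are stable under pull-back and push-forward for the morphisms of
varieties, and under the product with the classes of cycles on `V`. No Künneth components, no degrees
and no compactification of `𝒞` enter: only the Hodge structure and the monodromy of `𝒞` itself, and
not those of the ambient variety `T`.

The proof uses the structure theory of `Pool.Agent.N174.Lef`: by the first fundamental theorem for
the symplectic and orthogonal groups a class of `H(X ^ (n + 1)) ⊗ N`, for any representation `N` of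
`Γ`, which is fixed by a subgroup of finite index is a combination with rational coefficients of
the products of the vanishing parts of the diagonal of `X` and of the pull-backs of contractions of
the class, which are classes of `H(Y ^ (n + 1)) ⊗ N`; all these operations are algebraic.
-/

open CategoryTheory Pool.Agent.H914 Pool.Agent.N174.NC

universe u v w

namespace Pool.Agent.Results.MP_43e44c_ag.LefschetzTimesCategories

/-- **The noncommutative Hodge conjecture for `D(V) ⊠ 𝒞`.** -/
theorem result {k : Type u} [Field k] {𝒱 : VarClass k} {ops : CycleOps 𝒱}
    {W : WeilCohomology.{u, v} ops} {Γ : Type w} [Group Γ] {𝒞 : HodgeCat W Γ} {V₀ V : 𝒱.Obj}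
    (h : Reach 𝒞 V₀ V) (h₀ : NCHodge 𝒞 V₀) : NCHodge 𝒞 V :=
  ncHodge_of_reach h h₀

end Pool.Agent.Results.MP_43e44c_ag.LefschetzTimesCategories
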