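import Mathlib
import Pool.Agent.N994.PG.Nc
import Pool.Agent.N994.PG.Alg
import Pool.Agent.N994.PG.Fin

/-!
# The noncommutative Hodge conjecture for categories generated by abelian varieties with small or
# generic period fields

Let `C` be an admissible subcategory of the derived category of a smooth proper complex variety, which
is (by functors given by kernels, with rational coefficients) a direct factor of a finite sum of the
derived categories of abelian varieties `X j`; for instance an admissible subcategory of the derived
category of a product of curves, or of a moduli space of stable bundles on a curve, if the Jacobians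
are in the class below. We use the rational vector space `W = K_0^top(C) ⊗ ℚ`, its subspace `Hdg` of
Hodge classes, and the image `Z` of `K_0(C) ⊗ ℚ` (`IsDirectFactor`, a definition of helper995). We prove that all Hodge classes are in `Z`, if each `X j` is in the following class.

Let `P` be the class of all simple complex abelian varieties `Y`, of any dimension, such that the
periods of `Y` have coordinates (with respect to a basis of the tangent space) in a subfield `k` of
`ℂ` as follows:

* `k` is a number field of degree at most four, and `Y` has no complex multiplication;
* `k` is a number field of degree at most six, and `End(Y)` is of Albert type I or II;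
* `k` is a number field of odd degree, or no totally real subfield `F ≠ ℚ` of `k` is fixed by all real
  embeddings of `k` and `k` contains no imaginary quadratic field (for instance `k = ℚ(t)`), and
  moreover `dim Y` is odd, or `End(Y)` is of Albert type I or II and the relative dimension is not
  one of the numbers `2 ^ j`, `j ≥ 4`, `j ≡ 0, 1` modulo `4` and, if `k` is a number field,
  `2 j + 2 ≤ [k : ℚ]`;
* `k` is a number field of odd degree and `dim Y ≤ 7`; or no totally real subfield `F ≠ ℚ` of `k` is
  fixed by all real embeddings of `k`, `dim Y ≤ 7`, and `End(Y)` is of Albert type I or II or `k`
  contains no imaginary quadratic field (and `Y` has trivial discriminant if `dim Y = 6` and `End(Y)`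
  is an imaginary quadratic field).

(`SmallPeriods` and `GenericPeriods` in `Pool.Agent.N994.PG.Stm`.) The abelian varieties with periods
in number fields of a given degree `n > 2` are dense in the moduli spaces, in all dimensions.

Each `X j` is an abelian variety, with a number field `k₀` of degree at most four (depending on `j`),
such that each simple factor `Y` of `X j` is an elliptic curve, or has all periods in `k₀`, or is in `P`,
or is of Albert type I or II and of relative dimension at most three or with the largest possible Hodge
group, or of dimension five with endomorphism algebra `ℚ` (`HasPeriodFactors`). For these abelian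
varieties the Hodge ring is generated by divisor classes and by Weil classes of simple fourfolds and
sixfolds: this is the theorem `Pool.Agent.Results.MP_802513_ag.PeriodFields` of the team. The classes of
abelian varieties in `GeneratedByAbelianVarieties` (same page, by helper995) are different.
-/

namespace Pool.Agent.Results.MP_43e44c_ag.SmallPeriodFields

open Module Pool.Agent.Y90 Pool.Agent.R915 Pool.Agent.N994.PG.Nc
open Pool.Agent.N994.PG (PeriodsIn SmallPeriods GenericPeriods)

/-- There is a number field `k₀` of degree at most four such that each simple factor `Y` of `X` is an
elliptic curve, or has its periods in `k₀`, or has small or generic periods, or belongs to one of the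
classical classes `RealMult`, `FiveDim`, `FullHodge`. -/
def HasPeriodFactors (X : AV) : Prop :=
  ∃ k₀ : IntermediateField ℚ ℂ, 0 < finrank ℚ k₀ ∧ finrank ℚ k₀ ≤ 4 ∧
    ∀ Y, IsFactor Y X → finrank ℚ Y.H = 2 ∨ PeriodsIn Y k₀ ∨ SmallPeriods Y ∨
      GenericPeriods Y ∨ RealMult Y ∨ FiveDim Y ∨ FullHodge Y

/-- **The noncommutative Hodge conjecture for categories generated by abelian varieties with small or
generic period fields.** `W = K_0^top(C) ⊗ ℚ`, `Hdg` is the space of Hodge classes and `Z` the image of
`K_0(C) ⊗ ℚ`. -/
theorem result {J : Type} [Fintype J] (X : J → AV) (hX : ∀ j, HasPeriodFactors (X j)) (b : J → ℕ)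
    {W : Type} [AddCommGroup W] [Module ℚ W] (Hdg Z : Submodule ℚ W)
    (f : ∀ j, Coh (X j) (b j) →ₗ[ℚ] W) (g : ∀ j, W →ₗ[ℚ] Coh (X j) (b j))
    (h : IsDirectFactor X b Hdg Z f g) : Hdg ≤ Z := by
  intro w hw
  rw [← h.identity w]
  refine Submodule.sum_mem _ fun j _ => h.objects j _ ?_
  obtain ⟨k₀, h1, h2, h3⟩ := hX j
  exact Pool.Agent.N994.PG.alg_of_pring
    ((Pool.Agent.N994.PG.main_small k₀ h1 h2 (X j) h3 _ _).1 (h.hodge j w hw))

end Pool.Agent.Results.MP_43e44c_ag.SmallPeriodFields
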